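import Pool.Agent.Y933.KH.Freq

/-!
# The strip of the low bits: residue classes modulo `2 ^ K` with irregular patterns
-/

set_option autoImplicit false

open Finset Real

namespace Pool.Agent.K3h65.PP

open Pool.Agent.H429R2.Auto
open Pool.Agent.Y933.KH

/-- the strip of the low bits -/
def Str (A : ℕ) (δ L : ℝ) (n : ℕ) (i : ℤ) : Prop :=
  (n : ℝ) ≤ A * L ∧ δ * L ≤ (n : ℝ) - i ∧ (n : ℝ) - i ≤ (1 - δ) * L ∧ δ * L ≤ (n : ℝ) + i

/-- all patterns have their frequencies along the lines in the strip -/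
def Reg (A D : ℕ) (δ ε L : ℝ) (x : Conf) : Prop :=
  ∀ (w : Fin D → Fin D → Fin 6) (a : ℕ) (b : ℤ), a ≤ D → |b| ≤ D → (a ≠ 0 ∨ b ≠ 0) →
    ∀ (n : ℕ) (i : ℤ) (T : ℕ), ε * L ≤ T → (∀ t < T, Str A δ L (n + t * a) (i + t * b)) →
    |(cnt w n i a b T x : ℝ) - T * frq w| ≤ ε * T

lemma mod_aux (a b K r q : ℕ) (ha : 1 ≤ a) (hb : b < K) :
    (3 ^ a * (r + 2 ^ K * q)) / 2 ^ b % 6 = (3 ^ a * r) / 2 ^ b % 6 := by
  obtain ⟨a', rfl⟩ : ∃ a', a = a' + 1 := ⟨a - 1, by omega⟩
  obtain ⟨c, rfl⟩ : ∃ c, K = b + c + 1 := ⟨K - b - 1, by omega⟩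
  have e : 3 ^ (a' + 1) * (r + 2 ^ (b + c + 1) * q) =
      3 ^ (a' + 1) * r + 2 ^ b * (6 * (3 ^ a' * 2 ^ c * q)) := by
    ring
  rw [e, Nat.add_mul_div_left _ _ (by positivity), Nat.add_mul_mod_self_left]

lemma cell_val (m n : ℕ) (i : ℤ) (h1 : 0 ≤ (n : ℤ) + i) (h2 : 0 ≤ (n : ℤ) - i) :
    ((F^[n] (dg (m : ℝ)) i : Fin 6) : ℕ) =
      (3 ^ ((n : ℤ) + i).toNat * m) / 2 ^ ((n : ℤ) - i).toNat % 6 := by
  have r1 := rep_iter (β := (m : ℝ)) (Nat.cast_nonneg m) (rep_dg (m : ℝ)) n i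
  rw [r1]
  set a := ((n : ℤ) + i).toNat with ha
  set b := ((n : ℤ) - i).toNat with hb
  have ea : (a : ℤ) = n + i := Int.toNat_of_nonneg h1
  have eb : (b : ℤ) = n - i := Int.toNat_of_nonneg h2
  have e : (6 : ℝ) ^ i * ((3 / 2) ^ n * (m : ℝ)) = ((3 ^ a * m : ℕ) : ℝ) / ((2 ^ b : ℕ) : ℝ) := by
    have e1 : (6 : ℝ) ^ i = 2 ^ i * 3 ^ i := by
      rw [← mul_zpow]; norm_num
    have e2 : (3 : ℝ) ^ a = 3 ^ (n : ℤ) * 3 ^ i := by
      rw [← zpow_add₀ (by norm_num), ← ea, zpow_natCast]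
    have e3 : (2 : ℝ) ^ b * 2 ^ i = 2 ^ (n : ℤ) := by
      rw [← zpow_natCast, eb, ← zpow_add₀ (by norm_num)]
      congr 1
      ring
    push_cast
    rw [e1, e2, div_pow, zpow_natCast, eq_div_iff (by positivity)]
    rw [zpow_natCast] at e3
    have h2n : (2 : ℝ) ^ n ≠ 0 := by positivity
    field_simp
    rw [← e3]
    try ring
  rw [e, Nat.floor_div_eq_div]

lemma cell {m m' K n : ℕ} {i : ℤ} (h : m % 2 ^ K = m' % 2 ^ K) (h1 : 1 ≤ (n : ℤ) + i)
    (h2 : 0 ≤ (n : ℤ) - i) (h3 : (n : ℤ) - i < K) :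
    F^[n] (dg (m : ℝ)) i = F^[n] (dg (m' : ℝ)) i := by
  apply Fin.ext
  rw [cell_val m n i (by omega) h2, cell_val m' n i (by omega) h2]
  have ha : 1 ≤ ((n : ℤ) + i).toNat := by omega
  have hb : ((n : ℤ) - i).toNat < K := by omega
  have e1 : m = m % 2 ^ K + 2 ^ K * (m / 2 ^ K) := (Nat.mod_add_div _ _).symm
  have e2 : m' = m % 2 ^ K + 2 ^ K * (m' / 2 ^ K) := by
    rw [h]; exact (Nat.mod_add_div _ _).symm
  rw [e1, mod_aux _ _ _ _ _ ha hb]
  conv_rhs => rw [e2]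
  rw [mod_aux _ _ _ _ _ ha hb]

open Classical in
lemma reg_per {A D K : ℕ} {δ ε L : ℝ} (hL : L < K + 1) (hD : (D : ℝ) + 2 ≤ δ * L) {m m' : ℕ}
    (h : m % 2 ^ K = m' % 2 ^ K) (hr : Reg A D δ ε L (dg (m : ℝ))) :
    Reg A D δ ε L (dg (m' : ℝ)) := by
  intro w a b ha hb hab n i T hT hstr
  have e : cnt w n i a b T (dg (m : ℝ)) = cnt w n i a b T (dg (m' : ℝ)) := by
    unfold cnt
    congr 1
    apply filter_congr
    intro t ht
    obtain ⟨-, s2, s3, s4⟩ := hstr t (mem_range.1 ht)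
    unfold Occ
    refine forall_congr' fun a' => forall_congr' fun b' => ?_
    have ha' : (a' : ℕ) < D := a'.2
    have hb' : (b' : ℕ) < D := b'.2
    have ha'' : ((a' : ℕ) : ℝ) < D := by exact_mod_cast ha'
    have hb'' : ((b' : ℕ) : ℝ) < D := by exact_mod_cast hb'
    have ha0 : (0 : ℝ) ≤ ((a' : ℕ) : ℝ) := Nat.cast_nonneg _
    have hb0 : (0 : ℝ) ≤ ((b' : ℕ) : ℝ) := Nat.cast_nonneg _
    rw [cell h]
    · have : (1 : ℝ) ≤ ((n + t * a + a' : ℕ) : ℝ) + ((i + t * b + (b' : ℕ) : ℤ) : ℝ) := by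
        push_cast at s4 ⊢
        linarith
      exact_mod_cast this
    · have : (0 : ℝ) ≤ ((n + t * a + a' : ℕ) : ℝ) - ((i + t * b + (b' : ℕ) : ℤ) : ℝ) := by
        push_cast at s2 ⊢
        linarith
      exact_mod_cast this
    · have : ((n + t * a + a' : ℕ) : ℝ) - ((i + t * b + (b' : ℕ) : ℤ) : ℝ) < K := by
        push_cast at s3 ⊢
        linarith
      exact_mod_cast this
  rw [← e]
  exact hr w a b ha hb hab n i T hT hstr

lemma log_six_pos : 0 < log (6 : ℝ) := Real.log_pos (by norm_num)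

/-- the inverse of `log_2 6` -/
noncomputable def k0 : ℝ := log 2 / log 6

lemma k0_eq : (1 - kap) / 2 = k0 := by
  unfold kap k0
  have h := log_six_pos
  have e1 : log (3 / 2 : ℝ) = log 3 - log 2 := Real.log_div (by norm_num) (by norm_num)
  have e2 : log (6 : ℝ) = log 2 + log 3 := by
    rw [← Real.log_mul (by norm_num) (by norm_num)]
    norm_num
  rw [e1]
  field_simp
  rw [e2]
  ring

lemma k0_le : k0 ≤ 1 / 2 := by
  unfold k0
  rw [div_le_iff₀ log_six_pos]
  have : log (4 : ℝ) ≤ log 6 := Real.log_le_log (by norm_num) (by norm_num)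
  have e : log (4 : ℝ) = 2 * log 2 := by
    rw [show (4 : ℝ) = 2 ^ 2 by norm_num, Real.log_pow]
    norm_num
  linarith

lemma k0_ge : 1 / 3 ≤ k0 := by
  unfold k0
  rw [le_div_iff₀ log_six_pos]
  have : log (6 : ℝ) ≤ log 8 := Real.log_le_log (by norm_num) (by norm_num)
  have e : log (8 : ℝ) = 3 * log 2 := by
    rw [show (8 : ℝ) = 2 ^ 3 by norm_num, Real.log_pow]
    norm_num
  linarith

open Classical in
/-- the number of the irregular residue classes modulo `2 ^ K` -/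
theorem bad_count (A D : ℕ) (δ ε : ℝ) (hδ : 0 < δ) (hε : 0 < ε) : ∃ (c C : ℝ) (K₀ : ℕ), 0 < c ∧
    0 < C ∧ ∀ K : ℕ, K₀ ≤ K → ∀ L : ℝ, K ≤ L → L < K + 1 →
      (((range (2 ^ K)).filter fun r : ℕ => ¬ Reg A D δ ε L (dg (r : ℝ))).card : ℝ) ≤
        C * exp (-(c * K)) * 2 ^ K := by
  obtain ⟨c, C, hc, hC, h⟩ := freq_main (4 * A) D (δ / 2) ε (by positivity) hε
  refine ⟨c / 3, 6 * C, ⌈4 / δ⌉₊ + 4, by positivity, by positivity, ?_⟩
  intro K hK L hKL hLK
  have hK4 : 4 ≤ K := by omega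
  have hKR : (4 : ℝ) ≤ K := by exact_mod_cast hK4
  have hδK : 4 + δ * 4 ≤ δ * K := by
    have h1 : (⌈4 / δ⌉₊ + 4 : ℝ) ≤ K := by exact_mod_cast hK
    have h2 : 4 / δ ≤ (⌈4 / δ⌉₊ : ℝ) := Nat.le_ceil _
    have h3 : 4 / δ + 4 ≤ K := by linarith
    have h4 := mul_le_mul_of_nonneg_left h3 hδ.le
    have h5 : δ * (4 / δ + 4) = 4 + δ * 4 := by field_simp
    linarith
  set M := Nat.clog 6 (2 ^ K) with hM
  have hM1 : 2 ^ K ≤ 6 ^ M := Nat.le_pow_clog (by norm_num) _
  have h2K : 1 < 2 ^ K := Nat.one_lt_two_pow (by omega)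
  have hM0 : 1 ≤ M := Nat.clog_pos (by norm_num) h2K
  have hM2 : 6 ^ (M - 1) < 2 ^ K := Nat.pow_pred_clog_lt_self (by norm_num) h2K
  have hM0R : (1 : ℝ) ≤ M := by exact_mod_cast hM0
  -- comparison of M and K
  have hMl : k0 * K ≤ M := by
    have h1 : ((2 : ℝ) ^ K) ≤ 6 ^ M := by exact_mod_cast hM1
    have h2 := Real.log_le_log (by positivity) h1
    rw [Real.log_pow, Real.log_pow] at h2
    unfold k0
    rw [div_mul_eq_mul_div, div_le_iff₀ log_six_pos]
    linarith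
  have hMu : (M : ℝ) ≤ k0 * K + 1 := by
    have h1 : ((6 : ℝ) ^ (M - 1)) ≤ 2 ^ K := by exact_mod_cast hM2.le
    have h2 := Real.log_le_log (by positivity) h1
    rw [Real.log_pow, Real.log_pow, Nat.cast_sub hM0] at h2
    have h3 : (M : ℝ) - 1 ≤ k0 * K := by
      unfold k0
      rw [div_mul_eq_mul_div, le_div_iff₀ log_six_pos]
      push_cast at h2
      linarith
    linarith
  have hk1 := k0_le
  have hk2 := k0_ge
  have hkk := k0_eq
  have hML : (M : ℝ) ≤ L / 2 + 1 := by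
    have : k0 * K ≤ 1 / 2 * L := by
      apply mul_le_mul hk1 hKL (by positivity) (by norm_num)
    linarith
  have hML' : (M : ℝ) ≤ L := by linarith
  have hLM : L ≤ 4 * M := by
    have : 1 / 3 * (K : ℝ) ≤ k0 * K := by gcongr
    linarith
  have hMl2 : k0 * L - k0 ≤ M := by
    have : k0 * (L - 1) ≤ k0 * K := by
      apply mul_le_mul_of_nonneg_left (by linarith)
      linarith
    linarith
  set s : ℤ := 1 - M with hs
  obtain ⟨Bad, hBad, hgood⟩ := h M (dg 0) s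
  set B : Set Conf := {x | ¬ Reg A D δ ε L x} with hB
  -- regularity off the exceptional set
  have hreg : ∀ v, v ∉ Bad → put (dg 0) s v ∉ B := by
    intro v hv hvB
    apply hvB
    intro w a b ha hb hab n i T hT hstr
    refine hgood v hv w a b ha hb hab n i T ?_ ?_
    · refine le_trans ?_ hT
      gcongr
    · intro t ht
      obtain ⟨s1, s2, s3, s4⟩ := hstr t ht
      set n' : ℕ := n + t * a with hn'
      set i' : ℤ := i + t * b with hi'
      have hA0 : (0 : ℝ) ≤ A := Nat.cast_nonneg A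
      refine ⟨?_, ?_, ?_⟩
      · have : (n' : ℝ) ≤ ((4 * A * M : ℕ) : ℝ) := by
          push_cast
          calc (n' : ℝ) ≤ A * L := s1
            _ ≤ A * (4 * M) := by gcongr
            _ = 4 * A * M := by ring
        exact_mod_cast this
      · have hkap0 := kap_nonneg
        have hkap1 := kap_le_one
        have h1 : 0 ≤ (1 + kap) / 2 * ((n' : ℝ) + i' - δ * L) :=
          mul_nonneg (by linarith) (by linarith)
        have h2 : 0 ≤ (1 - kap) / 2 * ((1 - δ) * L - ((n' : ℝ) - i')) :=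
          mul_nonneg (by linarith) (by linarith)
        have h3 : 0 ≤ (i' : ℝ) + kap * n' + k0 * L - δ * L := by
          have e : (1 + kap) / 2 * ((n' : ℝ) + i' - δ * L) +
              (1 - kap) / 2 * ((1 - δ) * L - ((n' : ℝ) - i')) =
              (i' : ℝ) + kap * n' + (1 - kap) / 2 * L - δ * L := by ring
          rw [hkk] at e h2
          linarith
        have hsR : (s : ℝ) = 1 - M := by rw [hs]; push_cast; ring
        rw [hsR]
        have h4 : δ / 2 * M ≤ δ / 2 * (L / 2 + 1) := by gcongr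
        have h5 : δ * K ≤ δ * L := by gcongr
        nlinarith
      · have hsR : (s : ℝ) = 1 - M := by rw [hs]; push_cast; ring
        rw [hsR]
        have h4 : δ / 2 * M ≤ δ / 2 * L := by gcongr
        have h5 : 0 ≤ δ / 2 * L := by nlinarith
        linarith
  have hrep0 : Rep (dg 0) 0 := rep_dg 0
  have hz : ∀ i, s ≤ i → i < s + M → dg 0 i = 0 := by
    intro i _ _
    apply Fin.ext
    simp [dg]
  have hput : ∀ W < 6 ^ M, putW (dg 0) s M W = dg (W : ℝ) := by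
    intro W hW
    have h1 := rep_put (le_refl (0 : ℝ)) hrep0 s M hz W hW
    rw [rep_eq h1]
    congr 1
    have : s - 1 + (M : ℤ) = 0 := by rw [hs]; ring
    rw [this]
    simp
  have hcard : ((range (2 ^ K)).filter fun r : ℕ => ¬ Reg A D δ ε L (dg (r : ℝ))).card ≤ Bad.card := by
    calc ((range (2 ^ K)).filter fun r : ℕ => ¬ Reg A D δ ε L (dg (r : ℝ))).card
        ≤ ((range (6 ^ M)).filter (fun W => putW (dg 0) s M W ∈ B)).card := by
          apply card_le_card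
          intro r hr
          rw [mem_filter, mem_range] at hr ⊢
          have hr6 : r < 6 ^ M := lt_of_lt_of_le hr.1 hM1
          refine ⟨hr6, ?_⟩
          rw [hput r hr6]
          exact hr.2
      _ = ((Finset.univ : Finset (Fin M → Fin 6)).filter (fun v => put (dg 0) s v ∈ B)).card :=
          by convert (card_put (dg 0) s M B).symm
      _ ≤ Bad.card := by
          apply card_le_card
          intro v hv
          by_contra hvB
          exact hreg v hvB (mem_filter.1 hv).2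
  calc (((range (2 ^ K)).filter fun r : ℕ => ¬ Reg A D δ ε L (dg (r : ℝ))).card : ℝ) ≤ Bad.card := by
        exact_mod_cast hcard
    _ ≤ C * exp (-(c * M)) * 6 ^ M := hBad
    _ ≤ C * exp (-(c / 3 * K)) * (6 * 2 ^ K) := by
        have h1 : exp (-(c * M)) ≤ exp (-(c / 3 * K)) := by
          apply Real.exp_le_exp.2
          have : 1 / 3 * (K : ℝ) ≤ k0 * K := by gcongr
          nlinarith
        have h2 : (6 : ℝ) ^ M ≤ 6 * 2 ^ K := by
          have h3 : (6 : ℝ) ^ (M - 1) ≤ 2 ^ K := by exact_mod_cast hM2.le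
          have h4 : (6 : ℝ) ^ M = 6 * 6 ^ (M - 1) := by
            rw [← pow_succ']
            congr 1
            omega
          rw [h4]
          gcongr
        gcongr
    _ = 6 * C * exp (-(c / 3 * K)) * 2 ^ K := by ring

end Pool.Agent.K3h65.PP
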