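import Pool.Agent.K3h65.PP.Pow
import Pool.Agent.K3h65.PP.Strip

/-!
# Thin deterministic families: values of polynomials at integers and at powers
-/

set_option autoImplicit false

open Finset Real Polynomial

namespace Pool.Agent.K3h65.PP

open Pool.Agent.H429R2.Auto
open Pool.Agent.Y933.KH

open Classical in
/-- all but few of the values `|P (u n)|` are regular -/
theorem main (A D : ℕ) (δ ε : ℝ) (hδ : 0 < δ) (hε : 0 < ε) (P : ℤ[X]) (hP : P.natDegree ≠ 0)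
    (l μ : ℕ) : ∃ c C : ℝ, 0 < c ∧ 0 < C ∧ ∀ u : ℕ → ℤ, Iso l μ u → ∀ N : ℕ, 1 ≤ N →
      (((range N).filter fun n : ℕ =>
        ¬ Reg A D δ ε (logb 2 N) (dg (((P.eval (u n)).natAbs : ℕ) : ℝ))).card : ℝ) ≤
      C * (N : ℝ) ^ (1 - c) := by
  obtain ⟨c1, C1, K1, hc1, hC1, hbad⟩ := bad_count A D δ ε hδ hε
  set Q := derivative P with hQ
  set D' := Q.natDegree with hD'
  have hQ0 : Q ≠ 0 := fun h => hP (derivative_eq_zero.1 h)
  have hq0 : Q.leadingCoeff ≠ 0 := leadingCoeff_ne_zero.2 hQ0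
  obtain ⟨w, hw⟩ : ∃ w : ℕ, w = Q.leadingCoeff.natAbs := ⟨_, rfl⟩
  have hqw : ¬ (2 : ℤ) ^ w ∣ Q.leadingCoeff := by
    intro h
    have h1 := Int.natAbs_dvd_natAbs.2 h
    rw [Int.natAbs_pow] at h1
    have h2 := Nat.le_of_dvd (Int.natAbs_pos.2 hq0) h1
    have h3 : w < 2 ^ w := Nat.lt_two_pow_self
    have h4 : (2 : ℤ).natAbs = 2 := rfl
    rw [h4, ← hw] at h2
    omega
  obtain ⟨m, hm⟩ : ∃ m : ℕ, m = ⌈4 * D' / c1⌉₊ + 2 * D' + 2 := ⟨_, rfl⟩
  have hm1 : 1 ≤ m := by omega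
  have hm2 : 2 ≤ m := by omega
  have hmR : (1 : ℝ) ≤ m := by exact_mod_cast hm1
  have hmc : 4 * (D' : ℝ) ≤ c1 * m := by
    have h1 : 4 * (D' : ℝ) / c1 ≤ m := by
      refine (Nat.le_ceil _).trans ?_
      rw [hm]
      push_cast
      have : (0 : ℝ) ≤ D' := Nat.cast_nonneg _
      linarith
    rw [div_le_iff₀ hc1] at h1
    linarith
  obtain ⟨cst, hcst⟩ : ∃ cst : ℕ, cst = D' * (μ + l) + w + l + μ := ⟨_, rfl⟩
  obtain ⟨K3, hK3⟩ : ∃ K3 : ℕ, ((D : ℝ) + 2) / δ ≤ K3 := exists_nat_ge _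
  obtain ⟨K2, hK2⟩ : ∃ K2 : ℕ, K2 = K1 + 2 * cst + 2 + K3 := ⟨_, rfl⟩
  set E : ℝ := 2 ^ (2 * (D' * (μ + l)) + 2 * w + l + μ + 3) with hE
  have hE0 : 0 < E := by positivity
  set c := min (c1 / 2) (1 / (m : ℝ)) with hc
  have hc0 : 0 < c := lt_min (by positivity) (by positivity)
  have hc1' : c ≤ 1 := (min_le_right _ _).trans (by rw [div_le_one (by linarith)]; exact hmR)
  refine ⟨c, 2 * (8 * D' + C1 * E) + 2 ^ (K2 + 1), hc0, by positivity, ?_⟩
  intro u hu N hN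
  have hNR : (1 : ℝ) ≤ N := by exact_mod_cast hN
  have hN0 : (0 : ℝ) < N := by linarith
  set K := Nat.log 2 N with hK
  have hK1' : 2 ^ K ≤ N := Nat.pow_log_le_self 2 (by omega)
  have hK2' : N < 2 ^ (K + 1) := Nat.lt_pow_succ_log_self (by norm_num) N
  have hKR1 : (2 : ℝ) ^ K ≤ N := by exact_mod_cast hK1'
  have hKR2 : (N : ℝ) < 2 ^ (K + 1) := by exact_mod_cast hK2'
  have hpow1 : (1 : ℝ) ≤ (N : ℝ) ^ (1 - c) := Real.one_le_rpow hNR (by linarith)
  rcases lt_or_ge K K2 with hKK | hKK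
  · -- small N
    have h1 : (((range N).filter fun n : ℕ =>
        ¬ Reg A D δ ε (logb 2 N) (dg (((P.eval (u n)).natAbs : ℕ) : ℝ))).card : ℝ) ≤ N := by
      have := card_filter_le (range N) fun n : ℕ =>
        ¬ Reg A D δ ε (logb 2 N) (dg (((P.eval (u n)).natAbs : ℕ) : ℝ))
      rw [card_range] at this
      exact_mod_cast this
    have h2 : (N : ℝ) ≤ 2 ^ (K2 + 1) :=
      hKR2.le.trans (pow_le_pow_right₀ (by norm_num) (by omega))
    have h3 : (0 : ℝ) ≤ 2 * (8 * D' + C1 * E) := by positivity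
    calc _ ≤ (N : ℝ) := h1
      _ ≤ 2 ^ (K2 + 1) := h2
      _ ≤ (2 * (8 * D' + C1 * E) + 2 ^ (K2 + 1)) := by linarith
      _ ≤ (2 * (8 * D' + C1 * E) + 2 ^ (K2 + 1)) * (N : ℝ) ^ (1 - c) :=
        le_mul_of_one_le_right (by positivity) hpow1
  -- large N
  have hL1 : (K : ℝ) ≤ logb 2 N := by
    rw [Real.le_logb_iff_rpow_le (by norm_num) hN0, Real.rpow_natCast]
    exact hKR1
  have hL2 : logb 2 N < K + 1 := by
    rw [Real.logb_lt_iff_lt_rpow (by norm_num) hN0]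
    have : (2 : ℝ) ^ ((K : ℝ) + 1) = 2 ^ (K + 1) := by
      rw [← Real.rpow_natCast]
      push_cast
      rfl
    rw [this]
    exact hKR2
  set L := logb 2 N with hL
  have hDL : (D : ℝ) + 2 ≤ δ * L := by
    have h1 : (K3 : ℝ) ≤ L := by
      have : (K3 : ℝ) ≤ K := by exact_mod_cast (by omega : K3 ≤ K)
      linarith
    have h2 : ((D : ℝ) + 2) / δ ≤ L := hK3.trans h1
    rw [div_le_iff₀ hδ] at h2
    linarith
  set k := K / m + μ with hk
  set V := D' * (k + l) + w with hV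
  have hdm : D' * (K / m) ≤ K / 2 := by
    have h1 : 2 * D' ≤ m := by rw [hm]; omega
    have h2 : 2 * (D' * (K / m)) ≤ K := by
      calc 2 * (D' * (K / m)) = 2 * D' * (K / m) := by ring
        _ ≤ m * (K / m) := Nat.mul_le_mul_right _ h1
        _ ≤ K := Nat.mul_div_le K m
    omega
  have hVK : V + l + μ ≤ K := by
    have h1 : V + l + μ = D' * (K / m) + cst := by rw [hV, hk, hcst]; ring
    omega
  have hkK : k ≤ K + 1 := by
    have h2 : μ ≤ cst := by rw [hcst]; exact Nat.le_add_left _ _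
    have h3 : K / m ≤ K / 2 := Nat.div_le_div_left hm2 (by norm_num)
    have h4 : k ≤ K / 2 + cst := by rw [hk]; exact Nat.add_le_add h3 h2
    omega
  set B := (range (2 ^ K)).filter fun r : ℕ => ¬ Reg A D δ ε L (dg (r : ℝ)) with hB
  have hBc : (B.card : ℝ) ≤ C1 * exp (-(c1 * K)) * 2 ^ K := hbad K (by omega) L hL1 hL2
  set X := 2 ^ (K + 1) with hX
  have hsub : ((range N).filter fun n : ℕ =>
        ¬ Reg A D δ ε L (dg (((P.eval (u n)).natAbs : ℕ) : ℝ))) ⊆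
      ((range X).filter fun n => (2 : ℤ) ^ V ∣ Q.eval (u n)) ∪
      ((range X).filter fun n => ¬ (2 : ℤ) ^ V ∣ P.derivative.eval (u n) ∧
        (P.eval (u n)).natAbs % 2 ^ K ∈ B) := by
    intro n hn
    rw [mem_filter, mem_range] at hn
    have hnX : n < X := hn.1.trans hK2'
    rw [mem_union, mem_filter, mem_filter, mem_range]
    by_cases hdv : (2 : ℤ) ^ V ∣ Q.eval (u n)
    · exact Or.inl ⟨hnX, hdv⟩
    · refine Or.inr ⟨hnX, hdv, ?_⟩
      rw [hB, mem_filter, mem_range]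
      refine ⟨Nat.mod_lt _ (by positivity), fun hr => hn.2 ?_⟩
      exact reg_per hL2 hDL (Nat.mod_mod _ _) hr
  have hS1 := card_sing hu Q X k V (Nat.le_add_left _ _) (Nat.le_add_right _ _) (by
    rw [hV, Nat.add_sub_cancel_left]
    exact hqw)
  have hS2 := card_reg hu P X K V hVK B
  -- the sizes
  have hX1 : X / 2 ^ k = 2 ^ (K + 1 - k) := by
    rw [hX, Nat.pow_div hkK (by norm_num)]
  have hX2 : X / 2 ^ (K - V - l) = 2 ^ (V + l + 1) := by
    rw [hX, Nat.pow_div (by omega) (by norm_num)]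
    congr 1
    omega
  rw [hX1] at hS1
  rw [hX2] at hS2
  have hKm : (K : ℝ) / m - 1 ≤ ((K / m : ℕ) : ℝ) := by
    have h1 : K < m * (K / m + 1) := Nat.lt_mul_div_succ K (by omega)
    have h2 : (K : ℝ) < m * ((K / m : ℕ) + 1) := by exact_mod_cast h1
    rw [sub_le_iff_le_add, div_le_iff₀ (by linarith)]
    linarith
  have hlog2 : 0 < log 2 := Real.log_pos (by norm_num)
  have hlog2' : log 2 ≤ 1 := by
    have := Real.log_two_lt_d9
    linarith
  -- first set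
  have b1 : ((((range X).filter fun n => (2 : ℤ) ^ V ∣ Q.eval (u n)).card : ℕ) : ℝ) ≤
      8 * D' * (2 ^ K * (2 : ℝ) ^ (-(c * K))) := by
    have h1 : ((((range X).filter fun n => (2 : ℤ) ^ V ∣ Q.eval (u n)).card : ℕ) : ℝ) ≤
        D' * (2 ^ (K + 1 - k) + 1) := by exact_mod_cast hS1
    have h2 : (2 : ℝ) ^ (K + 1 - k) * 2 ^ k = 2 * 2 ^ K := by
      rw [← pow_add, Nat.sub_add_cancel hkK]
      ring
    have h3 : (1 : ℝ) ≤ 2 ^ (K + 1 - k) := one_le_pow₀ (by norm_num)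
    -- 2^(K+1-k) ≤ 4 * 2^K * 2^(-cK)
    have h4 : (2 : ℝ) ^ (c * K) ≤ 2 * 2 ^ k := by
      have h5 : c * K ≤ (k : ℝ) + 1 := by
        have h6 : c * K ≤ 1 / m * K := by
          gcongr
          exact min_le_right _ _
        have h7 : 1 / (m : ℝ) * K = K / m := by ring
        have h8 : (k : ℝ) = ((K / m : ℕ) : ℝ) + μ := by rw [hk]; push_cast; ring
        have h9 : (0 : ℝ) ≤ μ := Nat.cast_nonneg _
        linarith
      calc (2 : ℝ) ^ (c * K) ≤ (2 : ℝ) ^ ((k : ℝ) + 1) :=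
            Real.rpow_le_rpow_of_exponent_le (by norm_num) h5
        _ = 2 * 2 ^ k := by
            rw [Real.rpow_add (by norm_num), Real.rpow_natCast, Real.rpow_one]
            ring
    have h10 : (2 : ℝ) ^ (K + 1 - k) ≤ 4 * (2 ^ K * (2 : ℝ) ^ (-(c * K))) := by
      have h11 : (0 : ℝ) < 2 ^ k := by positivity
      have h12 : (0 : ℝ) < (2 : ℝ) ^ (c * K) := by positivity
      rw [Real.rpow_neg (by norm_num), ← div_eq_mul_inv, ← mul_div_assoc, le_div_iff₀ h12]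
      calc (2 : ℝ) ^ (K + 1 - k) * 2 ^ (c * (K : ℝ)) ≤ 2 ^ (K + 1 - k) * (2 * 2 ^ k) := by gcongr
        _ = 2 * (2 ^ (K + 1 - k) * 2 ^ k) := by ring
        _ = 4 * 2 ^ K := by rw [h2]; ring
    calc _ ≤ (D' : ℝ) * (2 ^ (K + 1 - k) + 1) := h1
      _ ≤ D' * (2 * (4 * (2 ^ K * (2 : ℝ) ^ (-(c * K))))) := by
          gcongr
          linarith
      _ = _ := by ring
  -- second set
  have b2 : ((((range X).filter fun n => ¬ (2 : ℤ) ^ V ∣ P.derivative.eval (u n) ∧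
        (P.eval (u n)).natAbs % 2 ^ K ∈ B).card : ℕ) : ℝ) ≤
      C1 * E * (2 ^ K * (2 : ℝ) ^ (-(c * K))) := by
    have h1 : ((((range X).filter fun n => ¬ (2 : ℤ) ^ V ∣ P.derivative.eval (u n) ∧
        (P.eval (u n)).natAbs % 2 ^ K ∈ B).card : ℕ) : ℝ) ≤
        (2 ^ (V + l + 1) + 1) * (B.card * 2 * 2 ^ (V + μ)) := by exact_mod_cast hS2
    have h2 : (2 : ℝ) ^ (V + l + 1) + 1 ≤ 2 ^ (V + l + 2) := by
      have : (1 : ℝ) ≤ 2 ^ (V + l + 1) := one_le_pow₀ (by norm_num)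
      rw [pow_succ _ (V + l + 1)]
      linarith
    have h3 : (2 : ℝ) ^ (V + l + 2) * (2 * 2 ^ (V + μ)) = 2 ^ (2 * (D' * (K / m))) * E := by
      rw [hE, ← pow_succ', ← pow_add, ← pow_add]
      congr 1
      rw [hV, hk]
      ring
    have h4 : (2 : ℝ) ^ (2 * (D' * (K / m))) ≤ exp (c1 / 2 * K) := by
      rw [← Real.rpow_natCast, Real.rpow_def_of_pos (by norm_num)]
      apply Real.exp_le_exp.2
      push_cast
      have h5 : ((K / m : ℕ) : ℝ) ≤ K / m := Nat.cast_div_le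
      have h6 : 2 * ((D' : ℝ) * ((K / m : ℕ) : ℝ)) ≤ c1 / 2 * K := by
        have h7 : (m : ℝ) * ((K / m : ℕ) : ℝ) ≤ K := by
          rw [mul_comm]
          rwa [le_div_iff₀ (by linarith)] at h5
        have h8 : (0 : ℝ) ≤ ((K / m : ℕ) : ℝ) := Nat.cast_nonneg _
        have h9 := mul_le_mul_of_nonneg_right hmc h8
        have h10 := mul_le_mul_of_nonneg_left h7 hc1.le
        nlinarith
      have h11 : (0 : ℝ) ≤ 2 * ((D' : ℝ) * ((K / m : ℕ) : ℝ)) := by positivity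
      calc log 2 * (2 * ((D' : ℝ) * ((K / m : ℕ) : ℝ))) ≤
            1 * (2 * ((D' : ℝ) * ((K / m : ℕ) : ℝ))) := by gcongr
        _ ≤ c1 / 2 * K := by linarith
    have h5 : exp (c1 / 2 * K) * exp (-(c1 * K)) ≤ (2 : ℝ) ^ (-(c * K)) := by
      rw [← Real.exp_add, Real.rpow_def_of_pos (by norm_num)]
      apply Real.exp_le_exp.2
      have h6 : c * K ≤ c1 / 2 * K := by
        gcongr
        exact min_le_left _ _
      have h7 : log 2 * (c * K) ≤ 1 * (c * K) := by gcongr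
      linarith
    calc _ ≤ ((2 : ℝ) ^ (V + l + 1) + 1) * (B.card * 2 * 2 ^ (V + μ)) := h1
      _ ≤ 2 ^ (V + l + 2) * (B.card * 2 * 2 ^ (V + μ)) := by gcongr
      _ = B.card * (2 ^ (V + l + 2) * (2 * 2 ^ (V + μ))) := by ring
      _ = B.card * (2 ^ (2 * (D' * (K / m))) * E) := by rw [h3]
      _ ≤ (C1 * exp (-(c1 * K)) * 2 ^ K) * (exp (c1 / 2 * K) * E) := by gcongr
      _ = C1 * E * (2 ^ K * (exp (c1 / 2 * K) * exp (-(c1 * K)))) := by ring
      _ ≤ C1 * E * (2 ^ K * (2 : ℝ) ^ (-(c * K))) := by gcongr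
  -- comparison with N
  have b3 : (2 : ℝ) ^ K * (2 : ℝ) ^ (-(c * K)) ≤ 2 * (N : ℝ) ^ (1 - c) := by
    have h1 : (N : ℝ) ^ c ≤ 2 * (2 : ℝ) ^ (c * K) := by
      calc (N : ℝ) ^ c ≤ ((2 : ℝ) ^ (K + 1)) ^ c := Real.rpow_le_rpow hN0.le hKR2.le hc0.le
        _ = (2 : ℝ) ^ (c * K + c) := by
            rw [← Real.rpow_natCast, ← Real.rpow_mul (by norm_num)]
            congr 1
            push_cast
            ring
        _ ≤ (2 : ℝ) ^ (c * K + 1) := Real.rpow_le_rpow_of_exponent_le (by norm_num) (by linarith)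
        _ = 2 * (2 : ℝ) ^ (c * K) := by
            rw [Real.rpow_add (by norm_num), Real.rpow_one]
            ring
    have h2 : (0 : ℝ) < (2 : ℝ) ^ (c * K) := by positivity
    have h3 : (0 : ℝ) < (N : ℝ) ^ c := by positivity
    rw [Real.rpow_neg (by norm_num), ← div_eq_mul_inv, div_le_iff₀ h2, Real.rpow_sub hN0,
      Real.rpow_one]
    calc (2 : ℝ) ^ K ≤ N := hKR1
      _ = N / (N : ℝ) ^ c * (N : ℝ) ^ c := by field_simp
      _ ≤ N / (N : ℝ) ^ c * (2 * (2 : ℝ) ^ (c * K)) := by gcongr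
      _ = 2 * (N / (N : ℝ) ^ c) * 2 ^ (c * (K : ℝ)) := by ring
  calc (((range N).filter fun n : ℕ =>
        ¬ Reg A D δ ε L (dg (((P.eval (u n)).natAbs : ℕ) : ℝ))).card : ℝ) ≤
      ((((range X).filter fun n => (2 : ℤ) ^ V ∣ Q.eval (u n)).card : ℕ) : ℝ) +
      ((((range X).filter fun n => ¬ (2 : ℤ) ^ V ∣ P.derivative.eval (u n) ∧
        (P.eval (u n)).natAbs % 2 ^ K ∈ B).card : ℕ) : ℝ) := by
        exact_mod_cast (card_le_card hsub).trans (card_union_le _ _)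
    _ ≤ 8 * D' * (2 ^ K * (2 : ℝ) ^ (-(c * K))) + C1 * E * (2 ^ K * (2 : ℝ) ^ (-(c * K))) :=
        add_le_add b1 b2
    _ = (8 * D' + C1 * E) * (2 ^ K * (2 : ℝ) ^ (-(c * K))) := by ring
    _ ≤ (8 * D' + C1 * E) * (2 * (N : ℝ) ^ (1 - c)) := by gcongr
    _ ≤ (2 * (8 * D' + C1 * E) + 2 ^ (K2 + 1)) * (N : ℝ) ^ (1 - c) := by
        have : (0 : ℝ) ≤ 2 ^ (K2 + 1) * (N : ℝ) ^ (1 - c) := by positivity
        nlinarith

end Pool.Agent.K3h65.PP
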