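import Mathlib

/-!
# Values of polynomials in 2-adic classes

Number-theoretic part: zeros of polynomials modulo powers of 2, and the number of the `n < X` for which
`P (u n)` lies in a given set of residue classes modulo `2 ^ K`, for sequences `u` which multiply the
2-adic distances by a constant.
-/

set_option autoImplicit false

open Polynomial Finset

namespace Pool.Agent.K3h65.PP

/-- `u` multiplies small 2-adic distances by `2 ^ (-l)` -/
def Iso (l μ : ℕ) (u : ℕ → ℤ) : Prop :=
  ∀ k, μ ≤ k → ∀ n n' : ℕ, (2 : ℤ) ^ (k + l) ∣ u n - u n' ↔ (2 : ℤ) ^ k ∣ (n : ℤ) - n'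

lemma pow_dvd_right {V s : ℕ} {a b : ℤ} (h : (2 : ℤ) ^ V ∣ a * b) (ha : ¬ (2 : ℤ) ^ s ∣ a) :
    (2 : ℤ) ^ (V - s) ∣ b := by
  have ha0 : a ≠ 0 := by
    rintro rfl
    exact ha (dvd_zero _)
  have hfin : FiniteMultiplicity (2 : ℤ) a := Int.finiteMultiplicity_iff.2 ⟨by norm_num, ha0⟩
  obtain ⟨c, hc, hc2⟩ := hfin.exists_eq_pow_mul_and_not_dvd
  set r := multiplicity (2 : ℤ) a with hr
  have hrs : r < s := by
    by_contra hlt
    push Not at hlt
    exact ha (hc ▸ Dvd.dvd.mul_right (pow_dvd_pow 2 hlt) c)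
  rcases le_or_gt V r with hVr | hVr
  · rw [show V - s = 0 by omega, pow_zero]
    exact one_dvd _
  · have h1 : (2 : ℤ) ^ r * 2 ^ (V - r) ∣ 2 ^ r * (c * b) := by
      rw [← pow_add, show r + (V - r) = V by omega, ← mul_assoc, ← hc]
      exact h
    have h2 : (2 : ℤ) ^ (V - r) ∣ c * b := (mul_dvd_mul_iff_left (by positivity)).1 h1
    have h3 : (2 : ℤ) ^ (V - r) ∣ b := Int.prime_two.pow_dvd_of_dvd_mul_left _ hc2 h2
    exact (pow_dvd_pow 2 (by omega)).trans h3

/-- the zeros modulo `2 ^ V` of a polynomial of degree `D` lie in at most `D` classes modulo `2 ^ s` -/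
lemma root_classes (s : ℕ) : ∀ (D : ℕ) (Q : ℤ[X]) (V : ℕ), Q.natDegree = D → D * s ≤ V →
    ¬ (2 : ℤ) ^ (V - D * s) ∣ Q.leadingCoeff →
    ∃ S : Finset ℤ, S.card ≤ D ∧ ∀ x : ℤ, (2 : ℤ) ^ V ∣ Q.eval x → ∃ y ∈ S, (2 : ℤ) ^ s ∣ x - y := by
  intro D
  induction D with
  | zero =>
    intro Q V hD hV hq
    refine ⟨∅, by simp, fun x hx => ?_⟩
    exfalso
    apply hq
    rw [Polynomial.eq_C_of_natDegree_eq_zero hD] at hx ⊢
    rw [eval_C] at hx
    rw [leadingCoeff_C, zero_mul, Nat.sub_zero]
    exact hx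
  | succ D ih =>
    intro Q V hD hV hq
    by_cases hex : ∃ x0 : ℤ, (2 : ℤ) ^ V ∣ Q.eval x0
    · obtain ⟨x0, hx0⟩ := hex
      set Q1 := Q /ₘ (X - C x0) with hQ1
      have hdeg : Q1.natDegree = D := by
        rw [hQ1, natDegree_divByMonic _ (monic_X_sub_C x0), natDegree_X_sub_C, hD]
        omega
      have hlead : Q1.leadingCoeff = Q.leadingCoeff := by
        apply leadingCoeff_divByMonic_X_sub_C
        intro h0
        have : Q.natDegree = 0 := natDegree_eq_of_degree_eq_some h0
        omega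
      have hle : s ≤ V := by nlinarith
      obtain ⟨S, hS, hSx⟩ := ih Q1 (V - s) hdeg (by
        have : (D + 1) * s = D * s + s := by ring
        omega) (by
          rw [hlead]
          have : V - s - D * s = V - (D + 1) * s := by
            have : (D + 1) * s = D * s + s := by ring
            omega
          rw [this]
          exact hq)
      refine ⟨insert x0 S, (card_insert_le _ _).trans (by omega), fun x hx => ?_⟩
      by_cases hxx : (2 : ℤ) ^ s ∣ x - x0
      · exact ⟨x0, mem_insert_self _ _, hxx⟩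
      · have heq : Q.eval x = Q.eval x0 + (x - x0) * Q1.eval x := by
          have h1 := modByMonic_add_div Q (X - C x0)
          rw [modByMonic_X_sub_C_eq_C_eval] at h1
          have h2 := congrArg (Polynomial.eval x) h1
          simp only [eval_add, eval_C, eval_mul, eval_sub, eval_X] at h2
          rw [← h2]
        have h3 : (2 : ℤ) ^ V ∣ (x - x0) * Q1.eval x := by
          have : (x - x0) * Q1.eval x = Q.eval x - Q.eval x0 := by rw [heq]; ring
          rw [this]
          exact dvd_sub hx hx0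
        obtain ⟨y, hy, hy2⟩ := hSx x (pow_dvd_right h3 hxx)
        exact ⟨y, mem_insert_of_mem hy, hy2⟩
    · push Not at hex
      exact ⟨∅, by simp, fun x hx => absurd hx (hex x)⟩

/-- pairs with the same value -/
lemma pair (P : ℤ[X]) {K V : ℕ} {x x' : ℤ} (hx : ¬ (2 : ℤ) ^ V ∣ P.derivative.eval x)
    (hV : (2 : ℤ) ^ V ∣ x' - x) (hK : (2 : ℤ) ^ K ∣ P.eval x' - P.eval x) :
    (2 : ℤ) ^ (K - V) ∣ x' - x := by
  obtain ⟨k, hk⟩ := P.binomExpansion x (x' - x)
  rw [show x + (x' - x) = x' by ring] at hk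
  have h1 : P.eval x' - P.eval x = (P.derivative.eval x + k * (x' - x)) * (x' - x) := by
    rw [hk]; ring
  rw [h1] at hK
  refine pow_dvd_right hK ?_
  intro h2
  apply hx
  have : P.derivative.eval x = (P.derivative.eval x + k * (x' - x)) - k * (x' - x) := by ring
  rw [this]
  exact dvd_sub h2 (hV.mul_left k)

/-- pairwise congruent integers below `X` -/
lemma card_class (X M : ℕ) (_hM : 0 < M) (S : Finset ℕ) (hX : ∀ n ∈ S, n < X)
    (hS : ∀ n ∈ S, ∀ n' ∈ S, (M : ℤ) ∣ (n : ℤ) - n') : S.card ≤ X / M + 1 := by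
  have h1 : S.card ≤ (range (X / M + 1)).card := by
    apply card_le_card_of_injOn (fun n => n / M)
    · intro n hn
      simp only [coe_range, Set.mem_Iio]
      exact Nat.lt_succ_of_le (Nat.div_le_div_right (hX n hn).le)
    · intro n hn n' hn' h
      have h2 := hS n hn n' hn'
      have h3 : n % M = n' % M := by
        have h4 : (n : ℤ) % M = (n' : ℤ) % M := (Int.modEq_iff_dvd.2 h2).symm
        exact_mod_cast h4
      rw [← Nat.div_add_mod n M, ← Nat.div_add_mod n' M, h3]
      simp only at h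
      rw [h]
  rwa [card_range] at h1

open Classical in
/-- the number of the `n < X` for which the derivative is divisible by a power of `2` -/
lemma card_sing {l μ : ℕ} {u : ℕ → ℤ} (hu : Iso l μ u) (Q : ℤ[X]) (X k V : ℕ) (hk : μ ≤ k)
    (hV : Q.natDegree * (k + l) ≤ V)
    (hq : ¬ (2 : ℤ) ^ (V - Q.natDegree * (k + l)) ∣ Q.leadingCoeff) :
    ((range X).filter fun n => (2 : ℤ) ^ V ∣ Q.eval (u n)).card ≤
      Q.natDegree * (X / 2 ^ k + 1) := by
  obtain ⟨S, hS, hSx⟩ := root_classes (k + l) Q.natDegree Q V rfl hV hq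
  have h1 : (range X).filter (fun n => (2 : ℤ) ^ V ∣ Q.eval (u n)) ⊆
      S.biUnion fun y => (range X).filter fun n => (2 : ℤ) ^ (k + l) ∣ u n - y := by
    intro n hn
    rw [mem_filter] at hn
    obtain ⟨y, hy, hy2⟩ := hSx _ hn.2
    rw [mem_biUnion]
    exact ⟨y, hy, mem_filter.2 ⟨hn.1, hy2⟩⟩
  refine (card_le_card h1).trans (card_biUnion_le.trans ?_)
  refine (sum_le_card_nsmul _ _ (X / 2 ^ k + 1) fun y _ => ?_).trans ?_
  · apply card_class X (2 ^ k) (by positivity)
    · intro n hn
      exact mem_range.1 (mem_filter.1 hn).1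
    · intro n hn n' hn'
      have h2 : (2 : ℤ) ^ (k + l) ∣ u n - u n' := by
        have := dvd_sub (mem_filter.1 hn).2 (mem_filter.1 hn').2
        rwa [sub_sub_sub_cancel_right] at this
      push_cast
      exact (hu k hk n n').1 h2
  · rw [smul_eq_mul]
    exact Nat.mul_le_mul_right _ hS

open Classical in
/-- the number of the `n < X` with `± P (u n)` in given classes modulo `2 ^ K` and a derivative which is
not divisible by `2 ^ V` -/
lemma card_reg {l μ : ℕ} {u : ℕ → ℤ} (hu : Iso l μ u) (P : ℤ[X]) (X K V : ℕ)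
    (hKV : V + l + μ ≤ K) (B : Finset ℕ) :
    ((range X).filter fun n => ¬ (2 : ℤ) ^ V ∣ P.derivative.eval (u n) ∧
      (P.eval (u n)).natAbs % 2 ^ K ∈ B).card ≤
      (X / 2 ^ (K - V - l) + 1) * (B.card * 2 * 2 ^ (V + μ)) := by
  set S := (range X).filter fun n => ¬ (2 : ℤ) ^ V ∣ P.derivative.eval (u n) ∧
      (P.eval (u n)).natAbs % 2 ^ K ∈ B with hS
  set φ : ℕ → (ℕ × Bool) × ℕ := fun n =>
    (((P.eval (u n)).natAbs % 2 ^ K, decide (0 ≤ P.eval (u n))), n % 2 ^ (V + μ)) with hφ
  have h1 := card_le_mul_card_image (f := φ) S (X / 2 ^ (K - V - l) + 1) (by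
    intro a _
    apply card_class X (2 ^ (K - V - l)) (by positivity)
    · intro n hn
      exact mem_range.1 (mem_filter.1 (mem_filter.1 hn).1).1
    · intro n hn n' hn'
      have hn1 := (mem_filter.1 hn).2
      have hn1' := (mem_filter.1 hn').2
      have e : φ n = φ n' := hn1.trans hn1'.symm
      simp only [hφ, Prod.mk.injEq] at e
      obtain ⟨⟨e1, e2⟩, e3⟩ := e
      have hn2 := (mem_filter.1 (mem_filter.1 hn').1).2.1
      -- the values are congruent
      have hv : (2 : ℤ) ^ K ∣ P.eval (u n) - P.eval (u n') := by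
        have e4 : (((P.eval (u n)).natAbs : ℤ)) % 2 ^ K = ((P.eval (u n')).natAbs : ℤ) % 2 ^ K := by
          exact_mod_cast e1
        have e5 : (2 : ℤ) ^ K ∣ ((P.eval (u n)).natAbs : ℤ) - ((P.eval (u n')).natAbs : ℤ) :=
          Int.ModEq.dvd e4.symm
        by_cases h0 : 0 ≤ P.eval (u n)
        · have h0' : 0 ≤ P.eval (u n') := by
            have : decide (0 ≤ P.eval (u n)) = true := by simpa using h0
            rw [this] at e2
            simpa using e2.symm
          rwa [Int.natAbs_of_nonneg h0, Int.natAbs_of_nonneg h0'] at e5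
        · have h0' : ¬ 0 ≤ P.eval (u n') := by
            have : decide (0 ≤ P.eval (u n)) = false := by simpa using h0
            rw [this] at e2
            simpa using e2.symm
          rw [Int.ofNat_natAbs_of_nonpos (by omega), Int.ofNat_natAbs_of_nonpos (by omega)] at e5
          have : P.eval (u n) - P.eval (u n') = -(-P.eval (u n) - -P.eval (u n')) := by ring
          rw [this]
          exact (dvd_neg).2 e5
      have hc : (2 : ℤ) ^ (V + μ) ∣ (n : ℤ) - n' := by
        have e4 : ((n : ℤ)) % 2 ^ (V + μ) = (n' : ℤ) % 2 ^ (V + μ) := by exact_mod_cast e3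
        exact Int.ModEq.dvd e4.symm
      have hc2 : (2 : ℤ) ^ (V + μ + l) ∣ u n - u n' := (hu (V + μ) (by omega) n n').2 hc
      have hc3 : (2 : ℤ) ^ V ∣ u n - u n' := (pow_dvd_pow 2 (by omega)).trans hc2
      have h6 := pair P hn2 hc3 hv
      have h7 : (2 : ℤ) ^ (K - V - l + l) ∣ u n - u n' := by
        rw [show K - V - l + l = K - V by omega]
        exact h6
      push_cast
      exact (hu (K - V - l) (by omega) n n').1 h7)
  refine h1.trans (Nat.mul_le_mul_left _ ?_)
  have h2 : S.image φ ⊆ (B ×ˢ (univ : Finset Bool)) ×ˢ range (2 ^ (V + μ)) := by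
    intro a ha
    obtain ⟨n, hn, rfl⟩ := mem_image.1 ha
    have hn1 := (mem_filter.1 hn).2.2
    simp only [hφ, mem_product, mem_univ, and_true, mem_range]
    exact ⟨hn1, Nat.mod_lt _ (by positivity)⟩
  refine (card_le_card h2).trans (le_of_eq ?_)
  rw [card_product, card_product, card_range, card_univ, Fintype.card_bool]

end Pool.Agent.K3h65.PP
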