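import Pool.Agent.K3h65.PP.Num

/-!
# The powers of an odd integer multiply the 2-adic distances by a constant
-/

set_option autoImplicit false

open Finset

namespace Pool.Agent.K3h65.PP

lemma pow_odd_iff {G : ℤ} (hG : Odd G) {m : ℕ} (hm : Odd m) (V : ℕ) :
    (2 : ℤ) ^ V ∣ G ^ m - 1 ↔ (2 : ℤ) ^ V ∣ G - 1 := by
  obtain ⟨r, hr⟩ := hG
  have hmodd : Odd (m : ℤ) := by exact_mod_cast hm
  have h5 : G ^ m - 1 = (∑ i ∈ range m, G ^ i) * (G - 1) := (geom_sum_mul G m).symm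
  have h6 : ¬ (2 : ℤ) ∣ ∑ i ∈ range m, G ^ i := by
    rw [← even_iff_two_dvd, Int.not_even_iff_odd]
    have h7 : (∑ i ∈ range m, G ^ i) ≡ (m : ℤ) [ZMOD 2] := by
      have : ∀ i ∈ range m, G ^ i ≡ 1 [ZMOD 2] := fun i _ => by
        have h8 : G ≡ 1 [ZMOD 2] := by
          rw [Int.modEq_iff_dvd, hr]
          exact ⟨-r, by ring⟩
        simpa using h8.pow i
      have h9 : (∑ i ∈ range m, G ^ i) ≡ ∑ _i ∈ range m, (1 : ℤ) [ZMOD 2] := by
        rw [Int.modEq_iff_dvd, ← sum_sub_distrib]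
        exact dvd_sum fun i hi => (Int.modEq_iff_dvd.1 (this i hi))
      simpa using h9
    rw [Int.odd_iff]
    rw [Int.odd_iff] at hmodd
    rw [← hmodd]
    exact h7
  rw [h5]
  constructor
  · intro h
    exact Int.prime_two.pow_dvd_of_dvd_mul_left _ h6 h
  · intro h
    exact h.mul_left _

/-- the powers of an odd integer `g ≠ ± 1` -/
lemma iso_pow (g : ℤ) (hg : Odd g) (h1 : g ≠ 1) (h2 : g ≠ -1) :
    ∃ l : ℕ, Iso l 1 (fun n => g ^ n) := by
  have hg2 : g ^ 2 - 1 ≠ 0 := by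
    intro h
    have : (g - 1) * (g + 1) = 0 := by linear_combination h
    rcases mul_eq_zero.1 this with h3 | h3
    · exact h1 (by omega)
    · exact h2 (by omega)
  have hf2 : FiniteMultiplicity (2 : ℤ) (g ^ 2 - 1) :=
    Int.finiteMultiplicity_iff.2 ⟨by norm_num, hg2⟩
  obtain ⟨r, hr⟩ := id hg
  have h8 : (2 : ℤ) ^ 3 ∣ g ^ 2 - 1 := by
    rw [hr]
    obtain ⟨c, hc⟩ : ∃ c, r * (r + 1) = 2 * c := by
      obtain ⟨c, hc⟩ := Int.even_mul_succ_self r
      exact ⟨c, by linarith⟩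
    exact ⟨c, by linear_combination 4 * hc⟩
  have hm3 : 3 ≤ multiplicity (2 : ℤ) (g ^ 2 - 1) := hf2.le_multiplicity_of_pow_dvd h8
  obtain ⟨l, hl⟩ : ∃ l, multiplicity (2 : ℤ) (g ^ 2 - 1) = l + 1 :=
    ⟨multiplicity (2 : ℤ) (g ^ 2 - 1) - 1, by omega⟩
  obtain ⟨o, ho, ho2⟩ := hf2.exists_eq_pow_mul_and_not_dvd
  rw [hl] at ho
  have hodd : Odd o := by
    rw [← Int.not_even_iff_odd]
    intro h
    exact ho2 (even_iff_two_dvd.1 h)
  -- exact powers
  have key : ∀ t : ℕ, ∃ o : ℤ, Odd o ∧ g ^ (2 ^ (t + 1)) - 1 = 2 ^ (t + 1 + l) * o := by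
    intro t
    induction t with
    | zero =>
      refine ⟨o, hodd, ?_⟩
      rw [show 0 + 1 + l = l + 1 by ring, ← ho]
      norm_num
    | succ t ih =>
      obtain ⟨o', ho', he⟩ := ih
      refine ⟨o' * (2 ^ (t + l) * o' + 1), ?_, ?_⟩
      · refine ho'.mul ?_
        have : Even ((2 : ℤ) ^ (t + l) * o') := by
          apply Even.mul_right
          exact (even_two).pow_of_ne_zero (by omega)
        exact this.add_one
      · have h3 : g ^ (2 ^ (t + 1 + 1)) - 1 =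
            (g ^ (2 ^ (t + 1)) - 1) * (g ^ (2 ^ (t + 1)) - 1 + 2) := by
          rw [pow_succ 2 (t + 1), pow_mul]
          ring
        rw [h3, he]
        ring
  -- divisibility of g ^ d - 1
  have main : ∀ k, 1 ≤ k → ∀ d : ℕ, (2 : ℤ) ^ (k + l) ∣ g ^ d - 1 ↔ 2 ^ k ∣ d := by
    intro k hk d
    rcases Nat.eq_zero_or_pos d with rfl | hd
    · simp
    obtain ⟨e, m, hm, rfl⟩ := Nat.exists_eq_two_pow_mul_odd hd.ne'
    have hcop : 2 ^ k ∣ 2 ^ e * m ↔ k ≤ e := by
      constructor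
      · intro h
        have h3 : 2 ^ k ∣ 2 ^ e := by
          apply Nat.Coprime.dvd_of_dvd_mul_right _ h
          exact Nat.Coprime.pow_left k (Nat.coprime_two_left.2 hm)
        exact (Nat.pow_dvd_pow_iff_le_right (by norm_num)).1 h3
      · intro h
        exact (pow_dvd_pow 2 h).mul_right m
    rw [hcop, pow_mul, pow_odd_iff (hg.pow) hm]
    rcases Nat.eq_zero_or_pos e with rfl | he
    · constructor
      · intro h
        exfalso
        rw [pow_zero, pow_one] at h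
        have h4 : (2 : ℤ) ^ (l + 1) ∣ g - 1 := (pow_dvd_pow 2 (by omega)).trans h
        have h5 : (2 : ℤ) ^ (l + 1 + 1) ∣ g ^ 2 - 1 := by
          have h6 : (2 : ℤ) ∣ g + 1 := by rw [hr]; exact ⟨r + 1, by ring⟩
          have h7 := mul_dvd_mul h4 h6
          rw [← pow_succ] at h7
          have : (g - 1) * (g + 1) = g ^ 2 - 1 := by ring
          rwa [this] at h7
        have := hf2.le_multiplicity_of_pow_dvd h5
        omega
      · intro h; omega
    · obtain ⟨e', rfl⟩ : ∃ e', e = e' + 1 := ⟨e - 1, by omega⟩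
      obtain ⟨o', ho', he'⟩ := key e'
      rw [he']
      constructor
      · intro h
        by_contra hlt
        push Not at hlt
        have h3 : (2 : ℤ) ^ (e' + 1 + l + 1) ∣ 2 ^ (e' + 1 + l) * o' :=
          (pow_dvd_pow 2 (by omega)).trans h
        rw [pow_succ] at h3
        have h4 : (2 : ℤ) ∣ o' := (mul_dvd_mul_iff_left (by positivity)).1 h3
        exact (Int.not_even_iff_odd.2 ho') (even_iff_two_dvd.2 h4)
      · intro h
        exact (pow_dvd_pow 2 (by omega)).mul_right _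
  refine ⟨l, fun k hk => ?_⟩
  have hle : ∀ n n' : ℕ, n' ≤ n → ((2 : ℤ) ^ (k + l) ∣ g ^ n - g ^ n' ↔
      (2 : ℤ) ^ k ∣ (n : ℤ) - n') := by
    intro n n' hn
    have e1 : g ^ n - g ^ n' = g ^ n' * (g ^ (n - n') - 1) := by
      rw [mul_sub, ← pow_add, Nat.add_sub_cancel' hn, mul_one]
    have e2 : (n : ℤ) - n' = ((n - n' : ℕ) : ℤ) := by push_cast [Nat.cast_sub hn]; ring
    have hnd : ¬ (2 : ℤ) ∣ g ^ n' := by
      rw [← even_iff_two_dvd, Int.not_even_iff_odd]
      exact hg.pow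
    have e3 : (2 : ℤ) ^ k ∣ ((n - n' : ℕ) : ℤ) ↔ 2 ^ k ∣ (n - n') := by
      have : ((2 ^ k : ℕ) : ℤ) = (2 : ℤ) ^ k := by push_cast; rfl
      rw [← this, Int.natCast_dvd_natCast]
    rw [e1, e2, e3, ← main k hk]
    constructor
    · intro h
      exact Int.prime_two.pow_dvd_of_dvd_mul_left _ hnd h
    · intro h
      exact h.mul_left _
  intro n n'
  rcases le_total n' n with h | h
  · exact hle n n' h
  · have := hle n' n h
    rw [← neg_sub (g ^ n') (g ^ n), ← neg_sub (n' : ℤ) (n : ℤ), dvd_neg, dvd_neg]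
    exact this

lemma iso_id : Iso 0 0 (fun n : ℕ => (n : ℤ)) := fun k _ n n' => by simp

end Pool.Agent.K3h65.PP
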